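import Pool.Agent.H38.T8.Up

/-!
Quadratic twists of elliptic curves over the rationals with a rational three-isogeny: for a positive
proportion of the twists it is determined over which number fields with Galois closure of
three-power degree the group of points is finite and the three-primary part of the
Tate-Shafarevich group is zero.
-/

set_option autoImplicit false
open scoped Classical

namespace Pool.Agent.Results.MP_78d38b_nt.ThreeTowerTwists

open NumberField WeierstrassCurve Pool.Agent.H10

/-- `W` has finitely many points over `K` and the three-primary part of its Tate-Shafarevich group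
over `K` is zero: every locally constant one-cocycle `f` which is a coboundary over all completions
and for which `3 ^ m f` is a coboundary for some `m` is a coboundary. -/
def Trivial3 (K : Type) [Field K] [NumberField K] (W : WeierstrassCurve K) : Prop :=
  Finite W.toAffine.Point ∧ ∀ f : (AlgebraicClosure K ≃ₐ[K] AlgebraicClosure K) →
      (W.baseChange (AlgebraicClosure K)).toAffine.Point,
    IsCocycle K W f → IsLocTriv K W f → (∃ m : ℕ, IsCobound K W (fun σ => (3 ^ m) • f σ)) →
    IsCobound K W f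

/-- The curve `y^2 = x^3 + d n (a x + b n)^2` over `K`, the quadratic twist by `n` of the curve
`y^2 = x^3 + d (a x + b)^2`. -/
def twist (K : Type) [Field K] (d a b n : ℤ) : WeierstrassCurve K :=
  ⟨0, ((d * n * a ^ 2 : ℤ) : K), 0, ((2 * (d * n) * a * (b * n) : ℤ) : K), ((d * n * (b * n) ^ 2 : ℤ) : K)⟩

/-- If `t ^ 2 = D` modulo the prime `q` then `t = 0` modulo `q`. For `D` squarefree and `D = 2`
modulo `4` this says that `q` does not split in `ℚ(√D)`. -/
def NonSplit (q : ℕ) (D : ℤ) : Prop := ∀ t : ℤ, (q : ℤ) ∣ D - t ^ 2 → (q : ℤ) ∣ t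

/-- `q` ramifies in `K`. -/
def Ramifies (q : ℕ) (K : Type) [Field K] [NumberField K] : Prop :=
  ∃ v : IsDedekindDomain.HeightOneSpectrum (𝓞 K), (q : 𝓞 K) ∈ v.asIdeal ^ 2

/-- `K` is contained in a Galois extension of the rationals of degree a power of three, that is,
the Galois closure of `K` has degree a power of three. -/
def ThreeField (K : Type) [Field K] [NumberField K] : Prop :=
  ∃ (N : Type) (_ : Field N) (_ : NumberField N) (m : ℕ), IsGalois ℚ N ∧
    Module.finrank ℚ N = 3 ^ m ∧ Nonempty (K →+* N)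

/-- No prime `q ≠ 3` which ramifies in `K` splits in `ℚ(√D)`. -/
def Inert (D : ℤ) (K : Type) [Field K] [NumberField K] : Prop :=
  ∀ q : ℕ, q.Prime → q ≠ 3 → Ramifies q K → NonSplit q D

/-- The class number of `ℚ(√D)` is not divisible by three. -/
def ClassNumber3 (D : ℤ) : Prop := ∀ (F : Type) [Field F] [NumberField F] (s : F),
  s ^ 2 = (D : F) → Module.finrank ℚ F = 2 → ¬ 3 ∣ classNumber F

/-- The conditions on `n`: `d n` is negative, squarefree, `2` modulo `12`, and divisible by the primes
`q ≠ 3` which divide `b (27 b - 4 d a ^ 3)`. -/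
def Adm (d a b n : ℤ) : Prop := d * n < 0 ∧ Squarefree (d * n) ∧ (d * n) % 12 = 2 ∧
  ∀ q : ℕ, q.Prime → q ≠ 3 → (q : ℤ) ∣ b * (27 * b - 4 * d * a ^ 3) → (q : ℤ) ∣ d * n

/-- Let `E : y^2 = x^3 + d (a x + b)^2` with `d` squarefree, `b` nonzero and `a`, `d` prime to three.
Let `E_n` be the twist by `n` of `E` and `E'_n : y^2 = x^3 - 27 d n (a x + c n)^2`,
`c = 27 b - 4 d a^3`, the isogenous curve. Let `n` satisfy `Adm` and let `K` be any number field
whose Galois closure has three-power degree. Then `E'_n` has finitely many points over `K` and the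
three-primary part of its Tate-Shafarevich group over `K` is zero if and only if the class number
of `ℚ(√(d n))` is prime to three and no prime `q ≠ 3` which splits in `ℚ(√(d n))` ramifies in `K`.
These two conditions imply the same for `E_n`, and the second one is necessary for `E_n`. A
positive proportion of the integers `n` satisfies `Adm` and the condition on the class number,
even if finitely many primes are required not to split. -/
theorem result (d a b : ℤ) (hd : Squarefree d) (h3 : ¬ (3 : ℤ) ∣ a * d) (hb : b ≠ 0) :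
    (∀ n : ℤ, Adm d a b n → ∀ (K : Type) [Field K] [NumberField K], ThreeField K →
      (Trivial3 K (twist K (-27 * d) a (27 * b - 4 * d * a ^ 3) n) ↔
        ClassNumber3 (d * n) ∧ Inert (d * n) K) ∧
      (ClassNumber3 (d * n) ∧ Inert (d * n) K → Trivial3 K (twist K d a b n)) ∧
      (Trivial3 K (twist K d a b n) → Inert (d * n) K)) ∧
    ∀ S : Finset ℕ, ∃ c : ℝ, 0 < c ∧ ∃ x₀ : ℕ, ∀ x : ℕ, x₀ ≤ x →
      c * x ≤ (((Finset.Icc (-(x : ℤ)) x).filter (fun n => Adm d a b n ∧
        ClassNumber3 (d * n) ∧ ∀ q ∈ S, q.Prime → NonSplit q (d * n))).card : ℝ) := by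
  constructor
  · rintro n ⟨hneg, hsq, h12, hbad⟩ K _ _ ⟨N, _, _, m, hG, hN, ⟨j⟩⟩
    let _ : Algebra K N := j.toAlgebra
    have H := H38T8.dat8_of h3 hb hneg hsq h12 hbad
    have e1 : twist K d a b n =
        H55T3.curWD ((d * n : ℤ) : K) (a : K) ((b * n : ℤ) : K) := by
      unfold twist H55T3.curWD
      congr 1 <;> push_cast <;> ring
    have e2 : twist K (-27 * d) a (27 * b - 4 * d * a ^ 3) n =
        H55T3.curVD ((d * n : ℤ) : K) (a : K)
          (27 * ((b * n : ℤ) : K) - 4 * ((d * n : ℤ) : K) * (a : K) ^ 3) := by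
      unfold twist H55T3.curVD
      congr 1 <;> push_cast <;> ring
    have hT : ∀ W : WeierstrassCurve K, Trivial3 K W ↔
        Finite W.toAffine.Point ∧ H55T3.NoSha3 K W := by
      intro W
      constructor
      · rintro ⟨h1, h2⟩
        exact ⟨h1, fun f hf => h2 f hf.1 hf.2.1 hf.2.2⟩
      · rintro ⟨h1, h2⟩
        exact ⟨h1, fun f a b c => h2 f ⟨a, b, c⟩⟩
    have hcl : ClassNumber3 (d * n) ↔ H38T6.CubD (d * n) := H38T8.cl3_iff hneg (by omega)
    have hin : Inert (d * n) K ↔ ∀ q, H38T8.Bad (d * n) q → ¬ H38T6.RamIn q K := by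
      constructor
      · rintro h q ⟨hq, hq3, hs⟩ hr
        exact hs (h q hq hq3 hr)
      · intro h q hq hq3 hr
        by_contra hs
        exact h q ⟨hq, hq3, hs⟩ hr
    rw [hT, hT, hcl, hin]
    refine ⟨H38T8.iff_V H hN e2, ?_, ?_⟩
    · rintro ⟨h1, h2⟩
      exact H38T8.suff8 H h1 hN h2 _ (Or.inl e1)
    · intro h
      exact H38T8.imp_W H hN e1 h
  · intro S
    obtain ⟨c, hc, x₀, h⟩ := H38T8.final8 hd h3 hb S
    refine ⟨c, hc, x₀, fun x hx => (h x hx).trans ?_⟩
    have hle : ((Finset.Icc (-(x : ℤ)) x).filter (fun n => d * n < 0 ∧ Squarefree (d * n) ∧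
        (d * n) % 12 = 2 ∧ (∀ q ∈ S, q.Prime → H38T6.NonSplit q (d * n)) ∧
        H38T8.Dat8 (d * n) a (b * n) ∧ H38T6.CubD (d * n))).card ≤
        ((Finset.Icc (-(x : ℤ)) x).filter (fun n => Adm d a b n ∧
        ClassNumber3 (d * n) ∧ ∀ q ∈ S, q.Prime → NonSplit q (d * n))).card := by
      refine Finset.card_le_card ?_
      intro n hn
      rw [Finset.mem_filter] at hn ⊢
      obtain ⟨hn1, hn2, hn3, hn4, hn5, hn6, hn7⟩ := hn
      refine ⟨hn1, ⟨hn2, hn3, hn4, ?_⟩, (H38T8.cl3_iff hn2 hn6.three).2 hn7, hn5⟩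
      intro q hq hq3 hqd
      refine hn6.bad q hq hq3 ?_
      have e1 : b * n * (27 * (b * n) - 4 * (d * n) * a ^ 3) =
          b * (27 * b - 4 * d * a ^ 3) * n ^ 2 := by ring
      rw [e1]
      exact hqd.mul_right _
    exact_mod_cast hle

end Pool.Agent.Results.MP_78d38b_nt.ThreeTowerTwists
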